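import Mathlib
import Pool.Agent.H896DB.Poly

set_option autoImplicit false

namespace Pool.Agent.H896DB

/-- a large parameter: `b = exp (-Lam/2)` -/
noncomputable def Lam : ℝ := 10 ^ 8

lemma exp_ge4 (t : ℝ) (ht : 0 ≤ t) : 1 + t + t ^ 2 / 2 + t ^ 3 / 6 + t ^ 4 / 24 ≤ Real.exp t := by
  have h := Real.sum_le_exp_of_nonneg ht 5
  simp only [Finset.sum_range_succ, Finset.sum_range_zero, Nat.factorial] at h
  norm_num at h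
  linarith

lemma exp8_lo : (2000 : ℝ) ≤ Real.exp 8 := by
  have h1 : (2.7182818283 : ℝ) < Real.exp 1 := Real.exp_one_gt_d9
  have h2 : Real.exp 8 = Real.exp 1 ^ 8 := by rw [← Real.exp_nat_mul]; norm_num
  rw [h2]
  calc (2000 : ℝ) ≤ 2.7 ^ 8 := by norm_num
    _ ≤ Real.exp 1 ^ 8 := by gcongr; linarith

lemma exp8_hi : Real.exp 8 ≤ 3000 := by
  have h1 : Real.exp 1 < 2.7182818286 := Real.exp_one_lt_d9
  have h2 : Real.exp 8 = Real.exp 1 ^ 8 := by rw [← Real.exp_nat_mul]; norm_num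
  rw [h2]
  calc Real.exp 1 ^ 8 ≤ 2.7182818286 ^ 8 := by gcongr
    _ ≤ 3000 := by norm_num

lemma La (y : ℝ) (hy : 0 ≤ y) : Lam * (1 + y) ^ 3 * y ^ 2 ≤ y * (Real.exp (Lam * y) - 1) := by
  have h1 := exp_ge4 (Lam * y) (mul_nonneg (by unfold Lam; norm_num) hy)
  have h2 : Lam * (1 + y) ^ 3 * y ≤ Real.exp (Lam * y) - 1 := by
    refine le_trans ?_ (by linarith : Lam * y + (Lam * y) ^ 2 / 2 + (Lam * y) ^ 3 / 6 +
      (Lam * y) ^ 4 / 24 ≤ Real.exp (Lam * y) - 1)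
    unfold Lam
    have e : ((10 : ℝ) ^ 8 * y + (10 ^ 8 * y) ^ 2 / 2 + (10 ^ 8 * y) ^ 3 / 6 +
      (10 ^ 8 * y) ^ 4 / 24) - 10 ^ 8 * (1 + y) ^ 3 * y =
      ((10 ^ 16 / 2 - 3 * 10 ^ 8) * y ^ 2 + (10 ^ 24 / 6 - 3 * 10 ^ 8) * y ^ 3 +
        (10 ^ 32 / 24 - 10 ^ 8) * y ^ 4) := by ring
    have : 0 ≤ ((10 : ℝ) ^ 8 * y + (10 ^ 8 * y) ^ 2 / 2 + (10 ^ 8 * y) ^ 3 / 6 +
      (10 ^ 8 * y) ^ 4 / 24) - 10 ^ 8 * (1 + y) ^ 3 * y := by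
      rw [e]
      have k1 : (0 : ℝ) ≤ 10 ^ 16 / 2 - 3 * 10 ^ 8 := by norm_num
      have k2 : (0 : ℝ) ≤ 10 ^ 24 / 6 - 3 * 10 ^ 8 := by norm_num
      have k3 : (0 : ℝ) ≤ 10 ^ 32 / 24 - 10 ^ 8 := by norm_num
      positivity
    linarith
  nlinarith

lemma Lb (y : ℝ) (hy : y ≤ 0) (hy2 : -8 ≤ Lam * y) :
    30000 * y ^ 2 ≤ y * (Real.exp (Lam * y) - 1) := by
  have hL : (0 : ℝ) < Lam := by unfold Lam; norm_num
  set t : ℝ := -(Lam * y) with ht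
  have ht0 : 0 ≤ t := by rw [ht]; nlinarith
  have h1 : t + 1 ≤ Real.exp t := Real.add_one_le_exp t
  have h2 : Real.exp (Lam * y) * Real.exp t = 1 := by
    rw [← Real.exp_add, ht]; simp
  have h3 : Real.exp t ≤ 3000 := by
    refine le_trans (Real.exp_le_exp.mpr (by linarith : t ≤ 8)) exp8_hi
  have h4 : 0 < Real.exp t := Real.exp_pos t
  have h5 : 0 < Real.exp (Lam * y) := Real.exp_pos _
  -- 1 - exp(Lam y) >= t * exp(-t) >= t / 3000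
  have h6 : t * Real.exp (Lam * y) ≤ 1 - Real.exp (Lam * y) := by nlinarith
  have h7 : 1 / 3000 ≤ Real.exp (Lam * y) := by
    rw [div_le_iff₀ (by norm_num)]
    nlinarith
  have h8 : t * (1 / 3000) ≤ 1 - Real.exp (Lam * y) := by
    refine le_trans ?_ h6
    gcongr
  have h9 : (30000 : ℝ) * (-y) ≤ t * (1 / 3000) := by
    rw [ht]; unfold Lam; nlinarith
  nlinarith

lemma Lc (y : ℝ) (hy2 : Lam * y ≤ -8) :
    (1 - 1 / 2000) * (-y) ≤ y * (Real.exp (Lam * y) - 1) := by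
  have hL : (0 : ℝ) < Lam := by unfold Lam; norm_num
  have hy : y < 0 := by
    by_contra h
    push Not at h
    nlinarith
  have h1 : Real.exp (Lam * y) ≤ 1 / 2000 := by
    have h2 : Real.exp (Lam * y) ≤ Real.exp (-8) := Real.exp_le_exp.mpr hy2
    have h3 : Real.exp (-8) * Real.exp 8 = 1 := by rw [← Real.exp_add]; simp
    have h4 := exp8_lo
    have h5 := Real.exp_pos (-8)
    rw [le_div_iff₀ (by norm_num)]
    nlinarith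
  nlinarith

/-- The quadratic part of the inequality. -/
noncomputable def Rhs (x b1 b2 b3 : ℝ) : ℝ :=
  2 * (19 / 10) * b1 * b2 + (1 - x) * (361 / 100) * b1 ^ 2 +
    2 * b3 * ((229 / 200 - 361 / 200 * x) * b1 + 19 / 10 * b2) +
    (2 - x) * ((229 / 200 - 361 / 200 * x) * b1 + 19 / 10 * b2) ^ 2

lemma R1 (x b1 b2 b3 w : ℝ) (hw : 1 ≤ w) (hx1 : x ≤ w) (hx2 : -(w - 1) ≤ x)
    (l1 l2 l3 : ℝ) (h1 : 40 * w ^ 3 ≤ l1) (h2 : 40 * w ^ 3 ≤ l2) (h3 : 40 * w ^ 3 ≤ l3) :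
    Rhs x b1 b2 b3 ≤ l1 * b1 ^ 2 + l2 * b2 ^ 2 + l3 * b3 ^ 2 := by
  set qq : ℝ := 229 / 200 - 361 / 200 * x with hqq
  set s : ℝ := qq * b1 + 19 / 10 * b2 with hs
  have hq : qq ^ 2 ≤ 4 * w ^ 2 := by
    have a1 : qq ≤ 2 * w := by rw [hqq]; linarith
    have a2 : -(2 * w) ≤ qq := by rw [hqq]; linarith
    nlinarith
  have hs2 : s ^ 2 ≤ 8 * w ^ 2 * b1 ^ 2 + 8 * b2 ^ 2 := by
    have e1 : s ^ 2 ≤ 2 * (qq * b1) ^ 2 + 2 * (19 / 10 * b2) ^ 2 := by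
      rw [hs]; nlinarith [sq_nonneg (qq * b1 - 19 / 10 * b2)]
    have e2 : (qq * b1) ^ 2 ≤ 4 * w ^ 2 * b1 ^ 2 := by
      rw [mul_pow]; gcongr
    nlinarith [sq_nonneg b2]
  have hw2 : w ^ 2 ≤ w ^ 3 := by nlinarith [sq_nonneg w]
  have hw1 : w ≤ w ^ 3 := by nlinarith [sq_nonneg w]
  have hw0 : 1 ≤ w ^ 3 := by nlinarith
  have g1 : (2 - x) * s ^ 2 ≤ 2 * w * s ^ 2 := by
    have : 2 - x ≤ 2 * w := by linarith
    gcongr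
  have g2 : 2 * w * s ^ 2 ≤ 16 * w ^ 3 * b1 ^ 2 + 16 * w ^ 3 * b2 ^ 2 := by
    calc 2 * w * s ^ 2 ≤ 2 * w * (8 * w ^ 2 * b1 ^ 2 + 8 * b2 ^ 2) := by gcongr
      _ = 16 * w ^ 3 * b1 ^ 2 + 16 * w * b2 ^ 2 := by ring
      _ ≤ 16 * w ^ 3 * b1 ^ 2 + 16 * w ^ 3 * b2 ^ 2 := by gcongr
  have g3 : 2 * b3 * s ≤ b3 ^ 2 + 8 * w ^ 3 * b1 ^ 2 + 8 * w ^ 3 * b2 ^ 2 := by
    have a1 : 2 * b3 * s ≤ b3 ^ 2 + s ^ 2 := by nlinarith [sq_nonneg (b3 - s)]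
    have a2 : 8 * w ^ 2 * b1 ^ 2 ≤ 8 * w ^ 3 * b1 ^ 2 := by gcongr
    have a3 : 8 * b2 ^ 2 ≤ 8 * w ^ 3 * b2 ^ 2 := by nlinarith [sq_nonneg b2]
    linarith
  have g4 : (1 - x) * (361 / 100) * b1 ^ 2 ≤ 4 * w ^ 3 * b1 ^ 2 := by
    have : (1 - x) * (361 / 100) ≤ 4 * w ^ 3 := by nlinarith
    gcongr
  have g5 : 2 * (19 / 10) * b1 * b2 ≤ 2 * w ^ 3 * b1 ^ 2 + 2 * w ^ 3 * b2 ^ 2 := by
    have a1 : 2 * (19 / 10) * b1 * b2 ≤ 2 * b1 ^ 2 + 2 * b2 ^ 2 := by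
      nlinarith [sq_nonneg (b1 - b2), sq_nonneg b1, sq_nonneg b2]
    have a2 : 2 * b1 ^ 2 ≤ 2 * w ^ 3 * b1 ^ 2 := by nlinarith [sq_nonneg b1]
    have a3 : 2 * b2 ^ 2 ≤ 2 * w ^ 3 * b2 ^ 2 := by nlinarith [sq_nonneg b2]
    linarith
  have g6 : b3 ^ 2 ≤ w ^ 3 * b3 ^ 2 := by nlinarith [sq_nonneg b3]
  have k1 : 40 * w ^ 3 * b1 ^ 2 ≤ l1 * b1 ^ 2 := by gcongr
  have k2 : 40 * w ^ 3 * b2 ^ 2 ≤ l2 * b2 ^ 2 := by gcongr
  have k3 : 40 * w ^ 3 * b3 ^ 2 ≤ l3 * b3 ^ 2 := by gcongr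
  have n1 : 0 ≤ w ^ 3 * b1 ^ 2 := by positivity
  have n2 : 0 ≤ w ^ 3 * b2 ^ 2 := by positivity
  have n3 : 0 ≤ w ^ 3 * b3 ^ 2 := by positivity
  unfold Rhs
  rw [← hqq, ← hs]
  linarith

lemma R2 (x b1 b2 b3 : ℝ) (hx0 : 0 < x) (hx1 : x ≤ 1001 / 1000)
    (l1 l2 l3 : ℝ) (h1 : l1 * x = 1 - 1 / 2000) (h2 : 30000 ≤ l2) (h3 : 30000 ≤ l3) :
    Rhs x b1 b2 b3 ≤ l1 * b1 ^ 2 + l2 * b2 ^ 2 + l3 * b3 ^ 2 := by
  have hf := f_nonneg x (by linarith) hx1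
  have hl1 : ((1 - x) * (361/100) + (2 - x) * (229/200 - 361/200 * x) ^ 2) + 4/100 ≤ l1 := by
    have : 0 ≤ (l1 - (((1 - x) * (361/100) + (2 - x) * (229/200 - 361/200 * x) ^ 2) + 4/100)) * x := by
      nlinarith
    have h := nonneg_of_mul_nonneg_left this hx0
    linarith
  set qq : ℝ := 229 / 200 - 361 / 200 * x with hqq
  have q1 : qq ≤ 6 / 5 := by rw [hqq]; linarith
  have q2 : -(6 / 5) ≤ qq := by rw [hqq]; linarith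
  -- cross terms
  set c12 : ℝ := 19 / 10 + (2 - x) * qq * (19 / 10) with hc12
  have c1 : c12 ≤ 13 / 2 := by rw [hc12]; nlinarith
  have c2 : -(13 / 2) ≤ c12 := by rw [hc12]; nlinarith
  have d1 : 2 * c12 * b1 * b2 ≤ 3 / 100 * b1 ^ 2 + 1500 * b2 ^ 2 := by
    have a1 : c12 ^ 2 ≤ 169 / 4 := by nlinarith
    nlinarith [sq_nonneg (3 / 100 * b1 - c12 * b2), sq_nonneg b2, mul_nonneg (sub_nonneg.mpr a1) (sq_nonneg b2)]
  have d2 : 2 * b3 * (qq * b1) ≤ 1 / 100 * b1 ^ 2 + 200 * b3 ^ 2 := by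
    have a1 : qq ^ 2 ≤ 36 / 25 := by nlinarith
    nlinarith [sq_nonneg (1 / 100 * b1 - qq * b3), sq_nonneg b3, mul_nonneg (sub_nonneg.mpr a1) (sq_nonneg b3)]
  have d3 : 2 * b3 * (19 / 10 * b2) ≤ 2 * b2 ^ 2 + 2 * b3 ^ 2 := by
    nlinarith [sq_nonneg (b2 - b3), sq_nonneg b2, sq_nonneg b3]
  have d4 : (2 - x) * (19 / 10 * b2) ^ 2 ≤ 8 * b2 ^ 2 := by nlinarith [sq_nonneg b2]
  have k1 : ((((1 - x) * (361/100) + (2 - x) * qq ^ 2) + 4/100)) * b1 ^ 2 ≤ l1 * b1 ^ 2 := by gcongr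
  have k2 : 30000 * b2 ^ 2 ≤ l2 * b2 ^ 2 := by gcongr
  have k3 : 30000 * b3 ^ 2 ≤ l3 * b3 ^ 2 := by gcongr
  have e : Rhs x b1 b2 b3 = ((1 - x) * (361/100) + (2 - x) * qq ^ 2) * b1 ^ 2 + 2 * c12 * b1 * b2
      + 2 * b3 * (qq * b1) + 2 * b3 * (19 / 10 * b2) + (2 - x) * (19 / 10 * b2) ^ 2 := by
    unfold Rhs; rw [← hqq, hc12]; ring
  rw [e]
  nlinarith [sq_nonneg b1, sq_nonneg b2, sq_nonneg b3]

lemma R3 (x b1 b2 b3 : ℝ) (hx0 : 1 < x) (hx1 : x ≤ 201 / 100)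
    (l1 l2 l3 : ℝ) (h1 : l1 * x = 1 - 1 / 2000) (h2 : l2 * (x - 1) = 1 - 1 / 2000)
    (h3 : 30000 ≤ l3) :
    Rhs x b1 b2 b3 ≤ l1 * b1 ^ 2 + l2 * b2 ^ 2 + l3 * b3 ^ 2 := by
  have hg := g_nonneg x hx0.le hx1
  have hu1 := u1_nonneg x hx0.le hx1
  set qq : ℝ := 229 / 200 - 361 / 200 * x with hqq
  have q1 : qq ≤ 5 / 2 := by rw [hqq]; linarith
  have q2 : -(5 / 2) ≤ qq := by rw [hqq]; linarith
  set c12 : ℝ := 19 / 10 + (2 - x) * qq * (19 / 10) with hc12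
  set A : ℝ := l1 - ((1 - x) * (361/100) + (2 - x) * qq ^ 2) - 1 / 1000 with hA
  set D : ℝ := l2 - (2 - x) * (361/100) - 1 / 1000 with hD
  have hxp : 0 < x := by linarith
  have hx1p : 0 < x - 1 := by linarith
  have hu2 : 0 ≤ ((1 - 1/2000) - (x - 1) * ((2 - x) * (361/100) + 1/1000)) := by
    nlinarith [sq_nonneg (x - 3 / 2)]
  have eA : A * x = ((1 - 1/2000) - x * (((1 - x) * (361/100) + (2 - x) * qq ^ 2) + 1/1000)) := by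
    rw [hA, ← h1]; ring
  have eD : D * (x - 1) = ((1 - 1/2000) - (x - 1) * ((2 - x) * (361/100) + 1/1000)) := by
    rw [hD, ← h2]; ring
  have hA0 : 0 ≤ A := by
    have : 0 ≤ A * x := by rw [eA]; exact hu1
    exact nonneg_of_mul_nonneg_left this hxp
  have hD0 : 0 ≤ D := by
    have : 0 ≤ D * (x - 1) := by rw [eD]; exact hu2
    exact nonneg_of_mul_nonneg_left this hx1p
  have hdet : c12 ^ 2 ≤ A * D := by
    have e : 0 ≤ (A * D - c12 ^ 2) * (x * (x - 1)) := by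
      have e2 : (A * D - c12 ^ 2) * (x * (x - 1)) = (A * x) * (D * (x - 1)) - x * (x - 1) * c12 ^ 2 := by
        ring
      rw [e2, eA, eD, hc12]
      exact hg
    have := nonneg_of_mul_nonneg_left e (by positivity)
    linarith
  -- the 2x2 form
  have hform : 2 * c12 * b1 * b2 ≤ A * b1 ^ 2 + D * b2 ^ 2 := by
    rcases eq_or_lt_of_le hA0 with h0 | h0
    · have hc0 : c12 = 0 := by
        have : c12 ^ 2 ≤ 0 := by rw [← h0, zero_mul] at hdet; exact hdet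
        nlinarith [sq_nonneg c12]
      rw [hc0, ← h0]; nlinarith [mul_nonneg hD0 (sq_nonneg b2)]
    · have : 0 ≤ A * (A * b1 ^ 2 + D * b2 ^ 2 - 2 * c12 * b1 * b2) := by
        have e : A * (A * b1 ^ 2 + D * b2 ^ 2 - 2 * c12 * b1 * b2) =
          (A * b1 - c12 * b2) ^ 2 + (A * D - c12 ^ 2) * b2 ^ 2 := by ring
        rw [e]
        have := mul_nonneg (sub_nonneg.mpr hdet) (sq_nonneg b2)
        positivity
      have := nonneg_of_mul_nonneg_right this h0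
      linarith
  have d2 : 2 * b3 * (qq * b1) ≤ 1 / 1000 * b1 ^ 2 + 6250 * b3 ^ 2 := by
    have a1 : qq ^ 2 ≤ 25 / 4 := by nlinarith
    nlinarith [sq_nonneg (1 / 1000 * b1 - qq * b3), sq_nonneg b3, mul_nonneg (sub_nonneg.mpr a1) (sq_nonneg b3)]
  have d3 : 2 * b3 * (19 / 10 * b2) ≤ 1 / 1000 * b2 ^ 2 + 4000 * b3 ^ 2 := by
    nlinarith [sq_nonneg (1 / 1000 * b2 - 19 / 10 * b3), sq_nonneg b2, sq_nonneg b3]
  have k3 : 30000 * b3 ^ 2 ≤ l3 * b3 ^ 2 := by gcongr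
  have e : Rhs x b1 b2 b3 = ((1 - x) * (361/100) + (2 - x) * qq ^ 2) * b1 ^ 2 + 2 * c12 * b1 * b2
      + 2 * b3 * (qq * b1) + 2 * b3 * (19 / 10 * b2) + (2 - x) * (361 / 100) * b2 ^ 2 := by
    unfold Rhs; rw [← hqq, hc12]; ring
  rw [e]
  have hb3 := sq_nonneg b3
  have eA2 : A * b1 ^ 2 = l1 * b1 ^ 2 - ((1 - x) * (361/100) + (2 - x) * qq ^ 2) * b1 ^ 2
      - 1 / 1000 * b1 ^ 2 := by rw [hA]; ring
  have eD2 : D * b2 ^ 2 = l2 * b2 ^ 2 - (2 - x) * (361/100) * b2 ^ 2 - 1 / 1000 * b2 ^ 2 := by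
    rw [hD]; ring
  linarith

end Pool.Agent.H896DB
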