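import Mathlib
import Pool.Agent.H896DB.Local

set_option autoImplicit false

namespace Pool.Agent.H896DB

lemma R4 (Y c1 c2 c3 e1 e2 e3 η : ℝ) (hY : 0 < Y) (h1 : e1 ≤ η) (h2 : e2 ≤ η) (h3 : e3 ≤ η)
    (hη0 : 0 ≤ η) (hη : η * (17 + 104 * Y + 128 * Y ^ 2 + 60 * Y ^ 3 + 10 * Y ^ 4) ≤ 1) :
    (Y + 2) * e1 * c1 ^ 2 + (Y + 1) * e2 * (c2 + 19 / 10 * (Y + 2) * c1) ^ 2 +
      Y * e3 * (c3 + (Y + 2) * (361 / 200 * (Y + 2) - 493 / 200) * c1 + 19 / 10 * (Y + 1) * c2) ^ 2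
      ≤ (Y + 2) * c1 ^ 2 + (Y + 1) * c2 ^ 2 + Y * c3 ^ 2 := by
  have b1 : (Y + 2) * e1 * c1 ^ 2 ≤ (Y + 2) * η * c1 ^ 2 := by gcongr
  have b2 : (Y + 1) * e2 * (c2 + 19 / 10 * (Y + 2) * c1) ^ 2 ≤
      (Y + 1) * η * (c2 + 19 / 10 * (Y + 2) * c1) ^ 2 := by gcongr
  have b3 : Y * e3 * (c3 + (Y + 2) * (361 / 200 * (Y + 2) - 493 / 200) * c1
      + 19 / 10 * (Y + 1) * c2) ^ 2 ≤
      Y * η * (c3 + (Y + 2) * (361 / 200 * (Y + 2) - 493 / 200) * c1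
      + 19 / 10 * (Y + 1) * c2) ^ 2 := by gcongr
  have s2 : (c2 + 19 / 10 * (Y + 2) * c1) ^ 2 ≤ 2 * c2 ^ 2 + 8 * (Y + 2) ^ 2 * c1 ^ 2 := by
    have q1 := sq_nonneg (c2 - 19 / 10 * (Y + 2) * c1)
    have q2 : 0 ≤ (Y + 2) ^ 2 * c1 ^ 2 := by positivity
    nlinarith
  have s3 : (c3 + (Y + 2) * (361 / 200 * (Y + 2) - 493 / 200) * c1 + 19 / 10 * (Y + 1) * c2) ^ 2
      ≤ 3 * c3 ^ 2 + 10 * (Y + 2) ^ 4 * c1 ^ 2 + 11 * (Y + 1) ^ 2 * c2 ^ 2 := by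
    set u : ℝ := (Y + 2) * (361 / 200 * (Y + 2) - 493 / 200) * c1 with hu
    set v : ℝ := 19 / 10 * (Y + 1) * c2 with hv
    have q0 : (c3 + u + v) ^ 2 ≤ 3 * c3 ^ 2 + 3 * u ^ 2 + 3 * v ^ 2 := by
      nlinarith [sq_nonneg (c3 - u), sq_nonneg (c3 - v), sq_nonneg (u - v)]
    have q1 : 3 * u ^ 2 ≤ 10 * (Y + 2) ^ 4 * c1 ^ 2 := by
      have e1 : 3 * u ^ 2 = 3 * (361 / 200 * (Y + 2) - 493 / 200) ^ 2 * ((Y + 2) ^ 2 * c1 ^ 2) := by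
        rw [hu]; ring
      have e2 : 10 * (Y + 2) ^ 4 * c1 ^ 2 = 10 * (Y + 2) ^ 2 * ((Y + 2) ^ 2 * c1 ^ 2) := by ring
      rw [e1, e2]
      have : 3 * (361 / 200 * (Y + 2) - 493 / 200) ^ 2 ≤ 10 * (Y + 2) ^ 2 := by nlinarith
      gcongr
    have q2 : 3 * v ^ 2 ≤ 11 * (Y + 1) ^ 2 * c2 ^ 2 := by
      have e1 : 3 * v ^ 2 = 3 * (361 / 100) * ((Y + 1) ^ 2 * c2 ^ 2) := by rw [hv]; ring
      have e2 : 0 ≤ ((Y + 1) ^ 2 * c2 ^ 2) := by positivity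
      nlinarith
    linarith
  have t2 : (Y + 1) * η * (c2 + 19 / 10 * (Y + 2) * c1) ^ 2 ≤
      (Y + 1) * η * (2 * c2 ^ 2 + 8 * (Y + 2) ^ 2 * c1 ^ 2) := by gcongr
  have t3 : Y * η * (c3 + (Y + 2) * (361 / 200 * (Y + 2) - 493 / 200) * c1
      + 19 / 10 * (Y + 1) * c2) ^ 2 ≤
      Y * η * (3 * c3 ^ 2 + 10 * (Y + 2) ^ 4 * c1 ^ 2 + 11 * (Y + 1) ^ 2 * c2 ^ 2) := by gcongr
  have f1 : η * (1 + 8 * (Y + 2) * (Y + 1) + 10 * Y * (Y + 2) ^ 3) ≤ 1 := by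
    have e : (1 + 8 * (Y + 2) * (Y + 1) + 10 * Y * (Y + 2) ^ 3) =
      17 + 104 * Y + 128 * Y ^ 2 + 60 * Y ^ 3 + 10 * Y ^ 4 := by ring
    rw [e]; exact hη
  have f2 : η * (2 + 11 * Y * (Y + 1)) ≤ 1 := by
    refine le_trans (mul_le_mul_of_nonneg_left ?_ hη0) hη
    have : 0 ≤ Y ^ 3 := by positivity
    have : 0 ≤ Y ^ 4 := by positivity
    nlinarith
  have f3 : η * 3 ≤ 1 := by
    refine le_trans (mul_le_mul_of_nonneg_left ?_ hη0) hη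
    have : 0 ≤ Y ^ 3 := by positivity
    have : 0 ≤ Y ^ 4 := by positivity
    nlinarith
  have g1 : (Y + 2) * c1 ^ 2 * (η * (1 + 8 * (Y + 2) * (Y + 1) + 10 * Y * (Y + 2) ^ 3)) ≤
      (Y + 2) * c1 ^ 2 * 1 := by gcongr
  have g2 : (Y + 1) * c2 ^ 2 * (η * (2 + 11 * Y * (Y + 1))) ≤ (Y + 1) * c2 ^ 2 * 1 := by gcongr
  have g3 : Y * c3 ^ 2 * (η * 3) ≤ Y * c3 ^ 2 * 1 := by gcongr
  have e : (Y + 2) * η * c1 ^ 2 + (Y + 1) * η * (2 * c2 ^ 2 + 8 * (Y + 2) ^ 2 * c1 ^ 2) +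
      Y * η * (3 * c3 ^ 2 + 10 * (Y + 2) ^ 4 * c1 ^ 2 + 11 * (Y + 1) ^ 2 * c2 ^ 2) =
      (Y + 2) * c1 ^ 2 * (η * (1 + 8 * (Y + 2) * (Y + 1) + 10 * Y * (Y + 2) ^ 3)) +
      (Y + 1) * c2 ^ 2 * (η * (2 + 11 * Y * (Y + 1))) + Y * c3 ^ 2 * (η * 3) := by ring
  linarith

/-- common reduction: if `l_n y_n^2 ≤ y_n (exp (Lam y_n) - 1)` and the quadratic form inequality
holds then contraction holds -/
lemma reduce (x a1 a2 a3 l1 l2 l3 : ℝ)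
    (h1 : l1 * (-x) ^ 2 ≤ (-x) * (Real.exp (Lam * (-x)) - 1))
    (h2 : l2 * (1 - x) ^ 2 ≤ (1 - x) * (Real.exp (Lam * (1 - x)) - 1))
    (h3 : l3 * (2 - x) ^ 2 ≤ (2 - x) * (Real.exp (Lam * (2 - x)) - 1))
    (hR : ∀ b1 b2 b3 : ℝ, Rhs x b1 b2 b3 ≤ l1 * b1 ^ 2 + l2 * b2 ^ 2 + l3 * b3 ^ 2)
    (B1 B2 B3 : ℝ) (hB1 : B1 ^ 2 * Real.exp (Lam * (-x)) = 1)
    (hB2 : B2 ^ 2 * Real.exp (Lam * (1 - x)) = 1) (hB3 : B3 ^ 2 * Real.exp (Lam * (2 - x)) = 1) :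
    (-x) * (a1 * B1) ^ 2 + (1 - x) * (a2 * B2 + 19 / 10 * ((-x) * B1 * a1)) ^ 2 +
      (2 - x) * (a3 * B3 + (229 / 200 - 361 / 200 * x) * ((-x) * B1 * a1) +
        19 / 10 * ((1 - x) * B2 * a2)) ^ 2 ≤ (-x) * a1 ^ 2 + (1 - x) * a2 ^ 2 + (2 - x) * a3 ^ 2 := by
  have k1 : l1 * ((-x) * B1 * a1) ^ 2 ≤ (-x) * (1 - B1 ^ 2) * a1 ^ 2 := by
    have e1 : l1 * ((-x) * B1 * a1) ^ 2 = (l1 * (-x) ^ 2) * (B1 ^ 2 * a1 ^ 2) := by ring
    have e2 : (-x) * (1 - B1 ^ 2) * a1 ^ 2 = ((-x) * (Real.exp (Lam * (-x)) - 1)) * (B1 ^ 2 * a1 ^ 2) := by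
      have : ((-x) * (Real.exp (Lam * (-x)) - 1)) * (B1 ^ 2 * a1 ^ 2) =
        (-x) * (B1 ^ 2 * Real.exp (Lam * (-x)) - B1 ^ 2) * a1 ^ 2 := by ring
      rw [this, hB1]
    rw [e1, e2]
    gcongr
  have k2 : l2 * ((1 - x) * B2 * a2) ^ 2 ≤ (1 - x) * (1 - B2 ^ 2) * a2 ^ 2 := by
    have e1 : l2 * ((1 - x) * B2 * a2) ^ 2 = (l2 * (1 - x) ^ 2) * (B2 ^ 2 * a2 ^ 2) := by ring
    have e2 : (1 - x) * (1 - B2 ^ 2) * a2 ^ 2 = ((1 - x) * (Real.exp (Lam * (1 - x)) - 1)) * (B2 ^ 2 * a2 ^ 2) := by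
      have : ((1 - x) * (Real.exp (Lam * (1 - x)) - 1)) * (B2 ^ 2 * a2 ^ 2) =
        (1 - x) * (B2 ^ 2 * Real.exp (Lam * (1 - x)) - B2 ^ 2) * a2 ^ 2 := by ring
      rw [this, hB2]
    rw [e1, e2]
    gcongr
  have k3 : l3 * ((2 - x) * B3 * a3) ^ 2 ≤ (2 - x) * (1 - B3 ^ 2) * a3 ^ 2 := by
    have e1 : l3 * ((2 - x) * B3 * a3) ^ 2 = (l3 * (2 - x) ^ 2) * (B3 ^ 2 * a3 ^ 2) := by ring
    have e2 : (2 - x) * (1 - B3 ^ 2) * a3 ^ 2 = ((2 - x) * (Real.exp (Lam * (2 - x)) - 1)) * (B3 ^ 2 * a3 ^ 2) := by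
      have : ((2 - x) * (Real.exp (Lam * (2 - x)) - 1)) * (B3 ^ 2 * a3 ^ 2) =
        (2 - x) * (B3 ^ 2 * Real.exp (Lam * (2 - x)) - B3 ^ 2) * a3 ^ 2 := by ring
      rw [this, hB3]
    rw [e1, e2]
    gcongr
  have hr := hR ((-x) * B1 * a1) ((1 - x) * B2 * a2) ((2 - x) * B3 * a3)
  have e : (-x) * (a1 * B1) ^ 2 + (1 - x) * (a2 * B2 + 19 / 10 * ((-x) * B1 * a1)) ^ 2 +
      (2 - x) * (a3 * B3 + (229 / 200 - 361 / 200 * x) * ((-x) * B1 * a1) +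
        19 / 10 * ((1 - x) * B2 * a2)) ^ 2 - ((-x) * a1 ^ 2 + (1 - x) * a2 ^ 2 + (2 - x) * a3 ^ 2) =
      Rhs x ((-x) * B1 * a1) ((1 - x) * B2 * a2) ((2 - x) * B3 * a3) -
        ((-x) * (1 - B1 ^ 2) * a1 ^ 2 + (1 - x) * (1 - B2 ^ 2) * a2 ^ 2
          + (2 - x) * (1 - B3 ^ 2) * a3 ^ 2) := by
    unfold Rhs; ring
  linarith

/-- the real local contraction inequality, all `x`. -/
theorem real_contraction (x a1 a2 a3 : ℝ)
    (B1 B2 B3 : ℝ) (hB1 : B1 ^ 2 * Real.exp (Lam * (-x)) = 1)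
    (hB2 : B2 ^ 2 * Real.exp (Lam * (1 - x)) = 1) (hB3 : B3 ^ 2 * Real.exp (Lam * (2 - x)) = 1) :
    (-x) * (a1 * B1) ^ 2 + (1 - x) * (a2 * B2 + 19 / 10 * ((-x) * B1 * a1)) ^ 2 +
      (2 - x) * (a3 * B3 + (229 / 200 - 361 / 200 * x) * ((-x) * B1 * a1) +
        19 / 10 * ((1 - x) * B2 * a2)) ^ 2 ≤ (-x) * a1 ^ 2 + (1 - x) * a2 ^ 2 + (2 - x) * a3 ^ 2 := by
  have hL : Lam = 10 ^ 8 := rfl
  have hL0 : (0 : ℝ) < Lam := by rw [hL]; norm_num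
  rcases le_total x 0 with hx0 | hx0
  · -- x ≤ 0
    have w1 : (1 : ℝ) ≤ 1 - x := by linarith
    refine reduce x a1 a2 a3 (Lam * (1 + (-x)) ^ 3) (Lam * (1 + (1 - x)) ^ 3)
      (Lam * (1 + (2 - x)) ^ 3) (La _ (by linarith)) (La _ (by linarith)) (La _ (by linarith))
      ?_ B1 B2 B3 hB1 hB2 hB3
    intro b1 b2 b3
    refine R1 x b1 b2 b3 (1 - x) w1 (by linarith) (by linarith) _ _ _ ?_ ?_ ?_
    · have : (1 + (-x)) = 1 - x := by ring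
      rw [this, hL]
      have : 0 ≤ (1 - x) ^ 3 := by positivity
      nlinarith
    · have h : (1 - x) ^ 3 ≤ (1 + (1 - x)) ^ 3 := by gcongr; linarith
      rw [hL]
      have : 0 ≤ (1 - x) ^ 3 := by positivity
      nlinarith
    · have h : (1 - x) ^ 3 ≤ (1 + (2 - x)) ^ 3 := by gcongr; linarith
      rw [hL]
      have : 0 ≤ (1 - x) ^ 3 := by positivity
      nlinarith
  rcases le_total (Lam * x) 8 with hx1 | hx1
  · -- 0 ≤ x ≤ δ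
    have hx2 : x ≤ 1 / 1000 := by rw [hL] at hx1; linarith
    refine reduce x a1 a2 a3 30000 (Lam * (1 + (1 - x)) ^ 3)
      (Lam * (1 + (2 - x)) ^ 3) (Lb _ (by linarith) (by linarith)) (La _ (by linarith))
      (La _ (by linarith)) ?_ B1 B2 B3 hB1 hB2 hB3
    intro b1 b2 b3
    have q1 : (1 : ℝ) ^ 3 ≤ (1 + (1 - x)) ^ 3 := by gcongr; linarith
    have q2 : (1 : ℝ) ^ 3 ≤ (1 + (2 - x)) ^ 3 := by gcongr; linarith
    refine R1 x b1 b2 b3 1 le_rfl (by linarith) (by linarith) _ _ _ (by norm_num) ?_ ?_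
    · rw [hL]; linarith
    · rw [hL]; linarith
  rcases le_total (Lam * (x - 1)) 8 with hx2 | hx2
  · -- δ ≤ x ≤ 1 + δ
    have hxp : 0 < x := by
      by_contra h
      push Not at h
      nlinarith
    have hx3 : x ≤ 1001 / 1000 := by rw [hL] at hx2; linarith
    have m1 : (1 - 1 / 2000) / x * (-x) ^ 2 ≤ (-x) * (Real.exp (Lam * (-x)) - 1) := by
      have := Lc (-x) (by linarith)
      have e : (1 - 1 / 2000) / x * (-x) ^ 2 = (1 - 1 / 2000) * (-(-x)) := by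
        field_simp
      rw [e]; exact this
    have m2 : 30000 * (1 - x) ^ 2 ≤ (1 - x) * (Real.exp (Lam * (1 - x)) - 1) := by
      rcases le_total x 1 with h | h
      · refine le_trans ?_ (La _ (by linarith))
        have q1 : (1 : ℝ) ^ 3 ≤ (1 + (1 - x)) ^ 3 := by gcongr; linarith
        have q2 : (30000 : ℝ) ≤ Lam * (1 + (1 - x)) ^ 3 := by rw [hL]; linarith
        gcongr
      · exact Lb _ (by linarith) (by linarith)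
    have m3 : 30000 * (2 - x) ^ 2 ≤ (2 - x) * (Real.exp (Lam * (2 - x)) - 1) := by
      refine le_trans ?_ (La _ (by linarith))
      have q1 : (1 : ℝ) ^ 3 ≤ (1 + (2 - x)) ^ 3 := by gcongr; linarith
      have q2 : (30000 : ℝ) ≤ Lam * (1 + (2 - x)) ^ 3 := by rw [hL]; linarith
      gcongr
    refine reduce x a1 a2 a3 _ _ _ m1 m2 m3 ?_ B1 B2 B3 hB1 hB2 hB3
    intro b1 b2 b3
    exact R2 x b1 b2 b3 hxp hx3 _ _ _ (by field_simp) le_rfl le_rfl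
  rcases le_total (Lam * (x - 2)) 8 with hx3 | hx3
  · -- 1 + δ ≤ x ≤ 2 + δ
    have hxp : 1 < x := by
      by_contra h
      push Not at h
      nlinarith
    have hx4 : x ≤ 201 / 100 := by rw [hL] at hx3; linarith
    have m1 : (1 - 1 / 2000) / x * (-x) ^ 2 ≤ (-x) * (Real.exp (Lam * (-x)) - 1) := by
      have := Lc (-x) (by nlinarith)
      have hx0 : x ≠ 0 := by linarith
      have e : (1 - 1 / 2000) / x * (-x) ^ 2 = (1 - 1 / 2000) * (-(-x)) := by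
        field_simp
      rw [e]; exact this
    have m2 : (1 - 1 / 2000) / (x - 1) * (1 - x) ^ 2 ≤ (1 - x) * (Real.exp (Lam * (1 - x)) - 1) := by
      have := Lc (1 - x) (by linarith)
      have hx0 : x - 1 ≠ 0 := by linarith
      have e : (1 - 1 / 2000) / (x - 1) * (1 - x) ^ 2 = (1 - 1 / 2000) * (-(1 - x)) := by
        field_simp
        ring
      rw [e]; exact this
    have m3 : 30000 * (2 - x) ^ 2 ≤ (2 - x) * (Real.exp (Lam * (2 - x)) - 1) := by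
      rcases le_total x 2 with h | h
      · refine le_trans ?_ (La _ (by linarith))
        have q1 : (1 : ℝ) ^ 3 ≤ (1 + (2 - x)) ^ 3 := by gcongr; linarith
        have q2 : (30000 : ℝ) ≤ Lam * (1 + (2 - x)) ^ 3 := by rw [hL]; linarith
        gcongr
      · exact Lb _ (by linarith) (by linarith)
    refine reduce x a1 a2 a3 _ _ _ m1 m2 m3 ?_ B1 B2 B3 hB1 hB2 hB3
    intro b1 b2 b3
    have hx0 : x ≠ 0 := by linarith
    have hx10 : x - 1 ≠ 0 := by linarith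
    exact R3 x b1 b2 b3 hxp hx4 _ _ _ (by field_simp) (by field_simp) le_rfl
  · -- x ≥ 2 + δ
    set Y : ℝ := x - 2 with hY
    have hYp : 0 < Y := by
      by_contra h
      push Not at h
      nlinarith
    have hxY : x = Y + 2 := by rw [hY]; ring
    have hηp : 0 < Real.exp (-(Lam * Y)) := Real.exp_pos _
    have hexp : 17 + 104 * Y + 128 * Y ^ 2 + 60 * Y ^ 3 + 10 * Y ^ 4 ≤ Real.exp (Lam * Y) := by
      refine le_trans ?_ (exp_ge4 (Lam * Y) (by positivity))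
      have a1 : (8 : ℝ) ≤ 10 ^ 8 * Y := by rw [← hL]; exact hx3
      have a2 : (8 : ℝ) ^ 2 ≤ (10 ^ 8 * Y) ^ 2 := by gcongr
      have a3 : (0 : ℝ) ≤ Y ^ 2 := by positivity
      have a4 : (0 : ℝ) ≤ Y ^ 3 := by positivity
      have a5 : (0 : ℝ) ≤ Y ^ 4 := by positivity
      rw [hL]
      nlinarith
    have hη : Real.exp (-(Lam * Y)) * (17 + 104 * Y + 128 * Y ^ 2 + 60 * Y ^ 3 + 10 * Y ^ 4) ≤ 1 := by
      have e : Real.exp (-(Lam * Y)) * Real.exp (Lam * Y) = 1 := by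
        rw [← Real.exp_add]; simp
      rw [← e]
      gcongr
    have hb : ∀ t u : ℝ, t ^ 2 * Real.exp (Lam * u) = 1 → u ≤ -Y →
        ∀ a : ℝ, a ^ 2 = Real.exp (Lam * u) * (a * t) ^ 2 := by
      intro t u h _ a
      have : Real.exp (Lam * u) * (a * t) ^ 2 = a ^ 2 * (t ^ 2 * Real.exp (Lam * u)) := by ring
      rw [this, h, mul_one]
    have q1 := hb B1 (-x) hB1 (by linarith) a1
    have q2 := hb B2 (1 - x) hB2 (by linarith) a2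
    have q3 := hb B3 (2 - x) hB3 (by linarith) a3
    have m1 : Real.exp (Lam * (-x)) ≤ Real.exp (-(Lam * Y)) := by
      apply Real.exp_le_exp.mpr; rw [hxY]; nlinarith
    have m2 : Real.exp (Lam * (1 - x)) ≤ Real.exp (-(Lam * Y)) := by
      apply Real.exp_le_exp.mpr; rw [hxY]; nlinarith
    have m3 : Real.exp (Lam * (2 - x)) ≤ Real.exp (-(Lam * Y)) := by
      apply Real.exp_le_exp.mpr; rw [hxY]; nlinarith
    have key := R4 Y (a1 * B1) (a2 * B2 + 19 / 10 * ((-x) * B1 * a1))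
      (a3 * B3 + (229 / 200 - 361 / 200 * x) * ((-x) * B1 * a1) + 19 / 10 * ((1 - x) * B2 * a2))
      _ _ _ _ hYp m1 m2 m3 hηp.le hη
    have i2 : a2 * B2 + 19 / 10 * ((-x) * B1 * a1) + 19 / 10 * (Y + 2) * (a1 * B1) = a2 * B2 := by
      rw [hxY]; ring
    have i3 : a3 * B3 + (229 / 200 - 361 / 200 * x) * ((-x) * B1 * a1) + 19 / 10 * ((1 - x) * B2 * a2)
        + (Y + 2) * (361 / 200 * (Y + 2) - 493 / 200) * (a1 * B1)
        + 19 / 10 * (Y + 1) * (a2 * B2 + 19 / 10 * ((-x) * B1 * a1)) = a3 * B3 := by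
      rw [hxY]; ring
    rw [i2, i3] at key
    have e1 : (Y + 2) * Real.exp (Lam * (-x)) * (a1 * B1) ^ 2 = (Y + 2) * a1 ^ 2 := by
      rw [q1]; ring
    have e2 : (Y + 1) * Real.exp (Lam * (1 - x)) * (a2 * B2) ^ 2 = (Y + 1) * a2 ^ 2 := by
      rw [q2]; ring
    have e3 : Y * Real.exp (Lam * (2 - x)) * (a3 * B3) ^ 2 = Y * a3 ^ 2 := by
      rw [q3]; ring
    rw [e1, e2, e3] at key
    have f1 : -x = -(Y + 2) := by rw [hxY]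
    have f2 : 1 - x = -(Y + 1) := by rw [hxY]; ring
    have f3 : 2 - x = -Y := by rw [hxY]; ring
    have g1 : (-x) * (a1 * B1) ^ 2 = -((Y + 2) * (a1 * B1) ^ 2) := by rw [f1]; ring
    have g2 : (1 - x) * (a2 * B2 + 19 / 10 * ((-x) * B1 * a1)) ^ 2 =
      -((Y + 1) * (a2 * B2 + 19 / 10 * ((-x) * B1 * a1)) ^ 2) := by rw [f2]; ring
    have g3 : (2 - x) * (a3 * B3 + (229 / 200 - 361 / 200 * x) * ((-x) * B1 * a1) +
        19 / 10 * ((1 - x) * B2 * a2)) ^ 2 = -(Y * (a3 * B3 + (229 / 200 - 361 / 200 * x) *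
        ((-x) * B1 * a1) + 19 / 10 * ((1 - x) * B2 * a2)) ^ 2) := by
      have : ∀ T : ℝ, (2 - x) * T = -(Y * T) := by intro T; rw [f3]; ring
      exact this _
    have g4 : (-x) * a1 ^ 2 + (1 - x) * a2 ^ 2 + (2 - x) * a3 ^ 2 =
      -((Y + 2) * a1 ^ 2 + (Y + 1) * a2 ^ 2 + Y * a3 ^ 2) := by rw [f1, f2, f3]; ring
    rw [g1, g2, g3, g4]
    linarith

end Pool.Agent.H896DB
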