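import Mathlib
import Pool.Agent.H896DB.Local2

set_option autoImplicit false

namespace Pool.Agent.H896DB

/-- `B_1 = exp (-Lam/2)`. -/
noncomputable def bb : ℝ := Real.exp (-(Lam / 2))

lemma bb_pos : 0 < bb := Real.exp_pos _

lemma bb_lt : bb < 1 := by
  unfold bb Lam
  rw [Real.exp_lt_one_iff]
  norm_num

lemma bb_rpow (t : ℝ) : bb ^ t = Real.exp (-(Lam / 2) * t) := by
  unfold bb
  rw [← Real.exp_mul]

lemma bb_rpow_sq (t : ℝ) : (bb ^ t) ^ 2 * Real.exp (Lam * t) = 1 := by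
  rw [bb_rpow, ← Real.exp_nat_mul, ← Real.exp_add]
  have : ((2 : ℕ) : ℝ) * (-(Lam / 2) * t) + Lam * t = 0 := by push_cast; ring
  rw [this, Real.exp_zero]

/-- the tuple -/
noncomputable def tup (n : ℕ) : ℂ :=
  if n = 1 then (bb : ℂ) else if n = 2 then (bb * (19 / 10) : ℝ) else
    if n = 3 then (bb * (59 / 20) : ℝ) else 0

lemma tup1 : tup 1 = (bb : ℂ) := by simp [tup]
lemma tup2 : tup 2 = ((bb * (19 / 10) : ℝ) : ℂ) := by simp [tup]
lemma tup3 : tup 3 = ((bb * (59 / 20) : ℝ) : ℂ) := by simp [tup]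

lemma poly_eq : (∑ k ∈ Finset.Ico 1 3, Polynomial.C (tup (k + 1) / tup 1) * Polynomial.X ^ k :
    Polynomial ℂ) = Polynomial.C (19 / 10 : ℂ) * Polynomial.X ^ 1 +
      Polynomial.C (59 / 20 : ℂ) * Polynomial.X ^ 2 := by
  have h0 : (bb : ℂ) ≠ 0 := by exact_mod_cast bb_pos.ne'
  have : Finset.Ico 1 3 = {1, 2} := by decide
  rw [this, Finset.sum_pair (by norm_num)]
  norm_num
  rw [tup1, tup2, tup3]
  push_cast
  have e1 : (bb : ℂ) * (19 / 10) / bb = 19 / 10 := by field_simp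
  have e2 : (bb : ℂ) * (59 / 20) / bb = 59 / 20 := by field_simp
  rw [e1, e2]

lemma coeffs (t : ℂ) (m : ℕ) (hm : m < 3) :
    (∑ j ∈ Finset.range (m + 1),
              (∏ i ∈ Finset.range j, (t - (i : ℂ))) / ((j.factorial : ℕ) : ℂ) *
              ((∑ k ∈ Finset.Ico 1 3, Polynomial.C (tup (k + 1) / tup 1) * Polynomial.X ^ k :
                Polynomial ℂ) ^ j).coeff m) =
    if m = 0 then 1 else if m = 1 then t * (19 / 10) else t * (59 / 20) + t * (t - 1) / 2 * (361 / 100) := by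
  rw [poly_eq]
  have hsq : ((Polynomial.C (19 / 10 : ℂ) * Polynomial.X ^ 1 +
      Polynomial.C (59 / 20 : ℂ) * Polynomial.X ^ 2) ^ 2 : Polynomial ℂ) =
      Polynomial.C (361 / 100 : ℂ) * Polynomial.X ^ 2 +
      (Polynomial.C (2 * (19 / 10) * (59 / 20) : ℂ) * Polynomial.X ^ 3 +
        Polynomial.C ((59 / 20) ^ 2 : ℂ) * Polynomial.X ^ 4) := by
    have h1 : (Polynomial.C (361 / 100 : ℂ)) = Polynomial.C (19 / 10 : ℂ) ^ 2 := by
      rw [← Polynomial.C_pow]; norm_num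
    have h2 : (Polynomial.C (2 * (19 / 10) * (59 / 20) : ℂ)) =
      2 * Polynomial.C (19 / 10 : ℂ) * Polynomial.C (59 / 20 : ℂ) := by
      rw [Polynomial.C_mul, Polynomial.C_mul]; rfl
    rw [h1, h2, Polynomial.C_pow]
    ring
  interval_cases m
  · simp
  · simp only [Finset.sum_range_succ, Finset.prod_range_succ]
    simp [Polynomial.coeff_one, Polynomial.coeff_X]
  · simp only [Finset.sum_range_succ, Finset.prod_range_succ]
    rw [hsq]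
    have z3 : (Polynomial.C (2 * (19 / 10) * (59 / 20) : ℂ) * Polynomial.X ^ 3 : Polynomial ℂ).coeff 2 = 0 := by
      rw [Polynomial.coeff_C_mul, Polynomial.coeff_X_pow]; simp
    have z4 : (Polynomial.C ((59 / 20) ^ 2 : ℂ) * Polynomial.X ^ 4 : Polynomial ℂ).coeff 2 = 0 := by
      rw [Polynomial.coeff_C_mul, Polynomial.coeff_X_pow]; simp
    have z2 : (Polynomial.C (361 / 100 : ℂ) * Polynomial.X ^ 2 : Polynomial ℂ).coeff 2 = 361 / 100 := by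
      rw [Polynomial.coeff_C_mul, Polynomial.coeff_X_pow]; simp
    rw [Polynomial.coeff_add, Polynomial.coeff_add, z2, z3, z4]
    simp [Polynomial.coeff_one, Polynomial.coeff_X, Polynomial.coeff_C_mul, Polynomial.coeff_X_pow]

lemma norm_sq_re_im (z : ℂ) : ‖z‖ ^ 2 = z.re ^ 2 + z.im ^ 2 := by
  rw [← Complex.normSq_eq_norm_sq, Complex.normSq_apply]; ring

theorem local_contraction (r : ℕ) (hr : r = 3) (ν : ℝ) (a : ℕ → ℂ) :
    ∑ m ∈ Finset.Icc 1 r, (ν + (m : ℝ)) *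
          ‖∑ n ∈ Finset.Icc 1 m, a n * ((((tup 1).re ^ (ν + (n : ℝ)) : ℝ)) : ℂ) *
            ∑ j ∈ Finset.range (m - n + 1),
              (∏ i ∈ Finset.range j, ((((ν + (n : ℝ)) : ℝ) : ℂ) - (i : ℂ))) / ((j.factorial : ℕ) : ℂ) *
              ((∑ k ∈ Finset.Ico 1 r, Polynomial.C (tup (k + 1) / tup 1) * Polynomial.X ^ k) ^ j).coeff (m - n)‖ ^ 2
        ≤ ∑ n ∈ Finset.Icc 1 r, (ν + (n : ℝ)) * ‖a n‖ ^ 2 := by
  subst hr
  have hre : (tup 1).re = bb := by rw [tup1]; simp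
  rw [hre]
  have i3 : Finset.Icc 1 3 = {1, 2, 3} := by decide
  have i2 : Finset.Icc 1 2 = {1, 2} := by decide
  have i1 : Finset.Icc 1 1 = {1} := by decide
  have s3 : ∀ f : ℕ → ℂ, ∑ n ∈ Finset.Icc 1 3, f n = f 1 + f 2 + f 3 := by
    intro f; rw [i3]; simp; ring
  have s3' : ∀ f : ℕ → ℝ, ∑ n ∈ Finset.Icc 1 3, f n = f 1 + f 2 + f 3 := by
    intro f; rw [i3]; simp; ring
  have s2 : ∀ f : ℕ → ℂ, ∑ n ∈ Finset.Icc 1 2, f n = f 1 + f 2 := by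
    intro f; rw [i2]; simp
  have s1 : ∀ f : ℕ → ℂ, ∑ n ∈ Finset.Icc 1 1, f n = f 1 := by
    intro f; rw [i1]; simp
  rw [s3', s3', s3, s2, s1]
  have c11 := coeffs (((ν + ((1 : ℕ) : ℝ) : ℝ)) : ℂ) (1 - 1) (by norm_num)
  have c12 := coeffs (((ν + ((1 : ℕ) : ℝ) : ℝ)) : ℂ) (2 - 1) (by norm_num)
  have c13 := coeffs (((ν + ((1 : ℕ) : ℝ) : ℝ)) : ℂ) (3 - 1) (by norm_num)
  have c22 := coeffs (((ν + ((2 : ℕ) : ℝ) : ℝ)) : ℂ) (2 - 2) (by norm_num)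
  have c23 := coeffs (((ν + ((2 : ℕ) : ℝ) : ℝ)) : ℂ) (3 - 2) (by norm_num)
  have c33 := coeffs (((ν + ((3 : ℕ) : ℝ) : ℝ)) : ℂ) (3 - 3) (by norm_num)
  rw [c11, c12, c13, c22, c23, c33]
  norm_num only [if_true, if_false]
  have hB1 := bb_rpow_sq (ν + 1)
  have hB2 := bb_rpow_sq (ν + 2)
  have hB3 := bb_rpow_sq (ν + 3)
  set B1 : ℝ := bb ^ (ν + 1) with hB1d
  set B2 : ℝ := bb ^ (ν + 2) with hB2d
  set B3 : ℝ := bb ^ (ν + 3) with hB3d
  have g1 : -(-(ν + 1)) = ν + 1 := by ring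
  have g2 : 1 - (-(ν + 1)) = ν + 2 := by ring
  have g3 : 2 - (-(ν + 1)) = ν + 3 := by ring
  have kr := real_contraction (-(ν + 1)) (a 1).re (a 2).re (a 3).re B1 B2 B3
    (by rw [g1]; exact hB1) (by rw [g2]; exact hB2) (by rw [g3]; exact hB3)
  have ki := real_contraction (-(ν + 1)) (a 1).im (a 2).im (a 3).im B1 B2 B3
    (by rw [g1]; exact hB1) (by rw [g2]; exact hB2) (by rw [g3]; exact hB3)
  rw [g1, g2, g3] at kr ki
  simp only [norm_sq_re_im]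
  have t21 : ((ν + 1 : ℝ) : ℂ) * (19 / 10) = (((ν + 1) * (19 / 10) : ℝ) : ℂ) := by push_cast; ring
  have t32 : ((ν + 2 : ℝ) : ℂ) * (19 / 10) = (((ν + 2) * (19 / 10) : ℝ) : ℂ) := by push_cast; ring
  have t31 : ((ν + 1 : ℝ) : ℂ) * (59 / 20) + ((ν + 1 : ℝ) : ℂ) * (((ν + 1 : ℝ) : ℂ) - 1) / 2 * (361 / 100)
    = (((ν + 1) * (59 / 20) + (ν + 1) * ((ν + 1) - 1) / 2 * (361 / 100) : ℝ) : ℂ) := by
      push_cast; ring
  rw [t21, t32, t31]
  simp only [Complex.add_re, Complex.add_im, Complex.mul_re, Complex.mul_im, Complex.ofReal_re,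
    Complex.ofReal_im, mul_zero, sub_zero, zero_add, add_zero, mul_one]
  have e1 : (ν + 1) * (((a 1).re * B1) ^ 2 + ((a 1).im * B1) ^ 2) +
        (ν + 2) *
          (((a 1).re * B1 * ((ν + 1) * (19 / 10)) + (a 2).re * B2) ^ 2 +
            ((a 1).im * B1 * ((ν + 1) * (19 / 10)) + (a 2).im * B2) ^ 2) +
      (ν + 3) *
        (((a 1).re * B1 * ((ν + 1) * (59 / 20) + (ν + 1) * ((ν + 1) - 1) / 2 * (361 / 100)) +
                  (a 2).re * B2 * ((ν + 2) * (19 / 10)) + (a 3).re * B3) ^ 2 +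
          ((a 1).im * B1 * ((ν + 1) * (59 / 20) + (ν + 1) * ((ν + 1) - 1) / 2 * (361 / 100)) +
                  (a 2).im * B2 * ((ν + 2) * (19 / 10)) + (a 3).im * B3) ^ 2) =
      ((ν + 1) * ((a 1).re * B1) ^ 2 + (ν + 2) * ((a 2).re * B2 + 19 / 10 * ((ν + 1) * B1 * (a 1).re)) ^ 2 +
      (ν + 3) * ((a 3).re * B3 + (229 / 200 - 361 / 200 * (-(ν + 1))) * ((ν + 1) * B1 * (a 1).re) +
        19 / 10 * ((ν + 2) * B2 * (a 2).re)) ^ 2) +
      ((ν + 1) * ((a 1).im * B1) ^ 2 + (ν + 2) * ((a 2).im * B2 + 19 / 10 * ((ν + 1) * B1 * (a 1).im)) ^ 2 +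
      (ν + 3) * ((a 3).im * B3 + (229 / 200 - 361 / 200 * (-(ν + 1))) * ((ν + 1) * B1 * (a 1).im) +
        19 / 10 * ((ν + 2) * B2 * (a 2).im)) ^ 2) := by ring
  have e2 : (ν + 1) * ((a 1).re ^ 2 + (a 1).im ^ 2) + (ν + 2) * ((a 2).re ^ 2 + (a 2).im ^ 2) +
      (ν + 3) * ((a 3).re ^ 2 + (a 3).im ^ 2) =
      ((ν + 1) * (a 1).re ^ 2 + (ν + 2) * (a 2).re ^ 2 + (ν + 3) * (a 3).re ^ 2) +
      ((ν + 1) * (a 1).im ^ 2 + (ν + 2) * (a 2).im ^ 2 + (ν + 3) * (a 3).im ^ 2) := by ring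
  rw [e1, e2]
  exact add_le_add kr ki

end Pool.Agent.H896DB
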