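import Mathlib
import Pool.Agent.Helper240.ZFM.AreaA

set_option autoImplicit false
open Complex Set Filter Topology Metric

namespace Pool.Agent.H896DB
open Pool.Agent.Helper405.Area

lemma area_summable {P : ℂ → ℂ} {m : ℕ} {a : ℕ → ℂ}
    (ha : ∀ z ∈ ball (0:ℂ) 1, HasSum (fun j => a j * z ^ j) (P z)) {r : ℝ} (hr0 : 0 < r)
    (hr1 : r < 1) : Summable fun j : ℕ => ((j : ℝ) - m) * ‖a j‖ ^ 2 * r ^ (2 * j) := by
  obtain ⟨ρ, hρ1, hρ2⟩ := exists_between hr1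
  have hρ0 : 0 < ρ := hr0.trans hρ1
  have hs := summable_of_hasSum ha hρ0.le hρ2
  obtain ⟨M, hM⟩ := hs.tendsto_atTop_zero.bddAbove_range
  have hM' : ∀ j, ‖a j‖ * ρ ^ j ≤ M := fun j => hM ⟨j, rfl⟩
  set x : ℝ := (r / ρ) ^ 2 with hx
  have hx0 : 0 ≤ x := by positivity
  have hx1 : x < 1 := by
    rw [hx, sq_lt_one_iff₀ (by positivity), div_lt_one hρ0]
    exact hρ1
  have g1 : Summable fun j : ℕ => ((j : ℝ) ^ 1 * x ^ j) :=
    summable_pow_mul_geometric_of_norm_lt_one 1 (by rw [Real.norm_of_nonneg hx0]; exact hx1)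
  have g2 : Summable fun j : ℕ => ((m : ℝ) * x ^ j) :=
    (summable_geometric_of_lt_one hx0 hx1).mul_left _
  have g3 := (g1.add g2).mul_left (M ^ 2)
  refine Summable.of_norm_bounded g3 ?_
  intro j
  have e1 : ‖a j‖ ^ 2 * r ^ (2 * j) = (‖a j‖ * ρ ^ j) ^ 2 * x ^ j := by
    rw [hx, ← pow_mul, div_pow]
    field_simp
    ring
  have e2 : ‖((j : ℝ) - m) * ‖a j‖ ^ 2 * r ^ (2 * j)‖ = |(j : ℝ) - m| * (‖a j‖ ^ 2 * r ^ (2 * j)) := by
    rw [mul_assoc, norm_mul, Real.norm_eq_abs, Real.norm_of_nonneg (by positivity)]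
  rw [e2, e1]
  have e3 : |(j : ℝ) - m| ≤ j + m := by
    rw [abs_le]
    constructor
    · have : (0 : ℝ) ≤ j := by positivity
      have : (0 : ℝ) ≤ m := by positivity
      linarith
    · have : (0 : ℝ) ≤ m := by positivity
      linarith
  have e4 : (‖a j‖ * ρ ^ j) ^ 2 ≤ M ^ 2 := by
    have := hM' j
    gcongr
  calc |(j : ℝ) - m| * ((‖a j‖ * ρ ^ j) ^ 2 * x ^ j) ≤ (j + m) * (M ^ 2 * x ^ j) := by
        gcongr
    _ = M ^ 2 * ((j : ℝ) ^ 1 * x ^ j + m * x ^ j) := by ring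

/-- finite truncation of the area theorem -/
theorem area_fin {h : ℂ → ℂ} (hd : DifferentiableOn ℂ h Dp) (hi : InjOn h Dp)
    (hp : Tendsto h (𝓝[≠] 0) (Bornology.cobounded ℂ)) {V : ℂ → ℂ} (hV : Differentiable ℂ V)
    {P : ℂ → ℂ} (hP : DifferentiableOn ℂ P (ball 0 1)) {m : ℕ} (hF : ∀ z ∈ Dp, V (h z) * z ^ m = P z)
    {a : ℕ → ℂ} (ha : ∀ z ∈ ball (0:ℂ) 1, HasSum (fun j => a j * z ^ j) (P z)) {J : ℕ} (hJ : m ≤ J) :
    ∑ j ∈ Finset.range J, ((j : ℝ) - m) * ‖a j‖ ^ 2 ≤ 0 := by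
  have hr : ∀ r : ℝ, 0 < r → r < 1 →
      ∑ j ∈ Finset.range J, ((j : ℝ) - m) * ‖a j‖ ^ 2 * r ^ (2 * j) ≤ 0 := by
    intro r hr0 hr1
    have h1 := area hd hi hp hV hP hF ha hr0 hr1
    have hs := area_summable (m := m) ha hr0 hr1
    have h2 := hs.sum_add_tsum_nat_add J
    have h3 : 0 ≤ ∑' i : ℕ, (((i + J : ℕ) : ℝ) - m) * ‖a (i + J)‖ ^ 2 * r ^ (2 * (i + J)) := by
      refine tsum_nonneg fun i => ?_
      have : (m : ℝ) ≤ ((i + J : ℕ) : ℝ) := by exact_mod_cast hJ.trans (Nat.le_add_left J i)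
      have h4 : 0 ≤ (((i + J : ℕ) : ℝ) - m) := by linarith
      positivity
    linarith
  have hcont : Continuous fun r : ℝ => ∑ j ∈ Finset.range J, ((j : ℝ) - m) * ‖a j‖ ^ 2 * r ^ (2 * j) := by
    fun_prop
  have hlim : Tendsto (fun r : ℝ => ∑ j ∈ Finset.range J, ((j : ℝ) - m) * ‖a j‖ ^ 2 * r ^ (2 * j))
      (𝓝[<] 1) (𝓝 (∑ j ∈ Finset.range J, ((j : ℝ) - m) * ‖a j‖ ^ 2 * (1 : ℝ) ^ (2 * j))) :=
    (hcont.tendsto 1).mono_left nhdsWithin_le_nhds
  have h5 := le_of_tendsto hlim (b := 0) (by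
    filter_upwards [Ioo_mem_nhdsLT (show (0:ℝ) < 1 by norm_num)] with r hr'
    exact hr r hr'.1 hr'.2)
  simpa using h5

/-- power series from a finite expansion with remainder -/
lemma hasSum_of_exp {f S : ℂ → ℂ} {c : ℕ → ℂ} {J : ℕ} (hS : DifferentiableOn ℂ S (ball 0 1))
    (h : ∀ z ∈ ball (0:ℂ) 1, f z = ∑ j ∈ Finset.range J, c j * z ^ j + z ^ J * S z) :
    ∃ a : ℕ → ℂ, (∀ j < J, a j = c j) ∧ ∀ z ∈ ball (0:ℂ) 1, HasSum (fun j => a j * z ^ j) (f z) := by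
  set s : ℕ → ℂ := fun n => ((n.factorial : ℂ))⁻¹ * iteratedDeriv n S 0 with hs
  refine ⟨fun j => if j < J then c j else s (j - J), fun j hj => by simp [hj], ?_⟩
  intro z hz
  rw [← hasSum_nat_add_iff' J]
  have h1 : ∀ n : ℕ, (if n + J < J then c (n + J) else s (n + J - J)) * z ^ (n + J) =
      z ^ J * (s n * z ^ n) := by
    intro n
    rw [if_neg (by omega), Nat.add_sub_cancel]
    ring
  simp only [h1]
  have h2 : f z - ∑ i ∈ Finset.range J, (if i < J then c i else s (i - J)) * z ^ i = z ^ J * S z := by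
    rw [h z hz]
    have : ∑ i ∈ Finset.range J, (if i < J then c i else s (i - J)) * z ^ i =
        ∑ j ∈ Finset.range J, c j * z ^ j := by
      refine Finset.sum_congr rfl fun i hi => ?_
      rw [if_pos (Finset.mem_range.mp hi)]
    rw [this]; ring
  rw [h2]
  have h3 := Complex.hasSum_taylorSeries_on_ball hS hz
  refine HasSum.mul_left _ ?_
  have e : (fun n => s n * z ^ n) =
      (fun n : ℕ => ((n.factorial : ℂ))⁻¹ • (z - 0) ^ n • iteratedDeriv n S 0) := by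
    funext n
    simp only [hs, sub_zero, smul_eq_mul]
    ring
  rw [e]
  exact h3

lemma coeff_unique {f : ℂ → ℂ} {a : ℕ → ℂ} (hf : DifferentiableOn ℂ f (ball 0 1))
    (ha : ∀ z ∈ ball (0:ℂ) 1, HasSum (fun j => a j * z ^ j) (f z)) (n : ℕ) :
    a n = iteratedDeriv n f 0 / ((n.factorial : ℕ) : ℂ) := by
  have hA : AnalyticAt ℂ f 0 := hf.analyticAt (ball_mem_nhds _ one_pos)
  have h1 := AnalyticAt.hasFPowerSeriesAt hA
  have h2 : HasFPowerSeriesAt f (FormalMultilinearSeries.ofScalars ℂ a) 0 := by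
    rw [hasFPowerSeriesAt_iff']
    filter_upwards [ball_mem_nhds (0 : ℂ) one_pos] with z hz
    have h3 := ha z hz
    have e : (fun n => (z - 0) ^ n • (FormalMultilinearSeries.ofScalars ℂ a).coeff n) =
        fun j => a j * z ^ j := by
      funext j
      simp only [FormalMultilinearSeries.coeff_ofScalars, sub_zero, smul_eq_mul]
      ring
    rw [e]
    exact h3
  have h3 := h1.eq_formalMultilinearSeries h2
  have h4 := congrArg (fun p => FormalMultilinearSeries.coeff p n) h3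
  simp only [FormalMultilinearSeries.coeff_ofScalars] at h4
  exact h4.symm

lemma coeff_of_exp {f S : ℂ → ℂ} {c : ℕ → ℂ} {J : ℕ} (hf : DifferentiableOn ℂ f (ball 0 1))
    (hS : DifferentiableOn ℂ S (ball 0 1))
    (h : ∀ z ∈ ball (0:ℂ) 1, f z = ∑ j ∈ Finset.range J, c j * z ^ j + z ^ J * S z) (n : ℕ)
    (hn : n < J) : iteratedDeriv n f 0 / ((n.factorial : ℕ) : ℂ) = c n := by
  obtain ⟨a, ha1, ha2⟩ := hasSum_of_exp hS h
  rw [← coeff_unique hf ha2 n, ha1 n hn]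

lemma dsl {f : ℂ → ℂ} (hf : DifferentiableOn ℂ f (ball 0 1)) :
    ∃ g : ℂ → ℂ, DifferentiableOn ℂ g (ball 0 1) ∧ ∀ z, f z = f 0 + z * g z := by
  refine ⟨dslope f 0, (Complex.differentiableOn_dslope (ball_mem_nhds _ one_pos)).mpr hf, ?_⟩
  intro z
  have := sub_smul_dslope f 0 z
  rw [sub_zero, smul_eq_mul] at this
  rw [this]; ring

end Pool.Agent.H896DB
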