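import Mathlib
import Pool.Agent.H896DB.Uni

set_option autoImplicit false
open Complex Set Filter Topology Metric

namespace Pool.Agent.H896DB
open Pool.Agent.Helper405.Area

/-- holomorphic inverse square root of a nonvanishing function -/
lemma inv_sqrt {F : ℂ → ℂ} (hF : DifferentiableOn ℂ F (ball 0 1)) (hF0 : F 0 = 1)
    (hne : ∀ z ∈ ball (0:ℂ) 1, F z ≠ 0) :
    ∃ κ : ℂ → ℂ, DifferentiableOn ℂ κ (ball 0 1) ∧ κ 0 = 1 ∧ (∀ z, κ z ≠ 0) ∧
      ∀ z ∈ ball (0:ℂ) 1, κ z ^ 2 * F z = 1 := by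
  have hd : DifferentiableOn ℂ (fun z => deriv F z / F z) (ball 0 1) :=
    (hF.deriv isOpen_ball).div hF hne
  obtain ⟨L, hL0, hL⟩ := (hd.isExactOn_ball).with_val_at 0 0
  have hG : ∀ z ∈ ball (0:ℂ) 1, HasDerivAt (fun z => F z * exp (-L z)) 0 z := by
    intro z hz
    have h1 : HasDerivAt F (deriv F z) z :=
      (hF.differentiableAt (isOpen_ball.mem_nhds hz)).hasDerivAt
    have h2 : HasDerivAt (fun z => exp (-L z)) (exp (-L z) * (-(deriv F z / F z))) z :=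
      (hL z hz).neg.cexp
    have h3 := h1.mul h2
    have e : deriv F z * exp (-L z) + F z * (exp (-L z) * (-(deriv F z / F z))) = 0 := by
      have := hne z hz
      field_simp
      ring
    rw [e] at h3
    exact h3
  have hconst : ∀ z ∈ ball (0:ℂ) 1, F z * exp (-L z) = 1 := by
    intro z hz
    have hp : IsPreconnected (ball (0:ℂ) 1) := (convex_ball (0:ℂ) 1).isPreconnected
    have := isOpen_ball.is_const_of_deriv_eq_zero hp
      (fun z hz => (hG z hz).differentiableAt.differentiableWithinAt)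
      (fun z hz => (hG z hz).deriv) hz (mem_ball_self one_pos)
    rw [this, hF0, hL0]
    simp
  refine ⟨fun z => exp (-L z / 2), ?_, by simp [hL0], fun z => exp_ne_zero _, ?_⟩
  · intro z hz
    have h1 := (hL z hz).differentiableAt
    exact ((h1.neg.div_const 2).cexp).differentiableWithinAt
  · intro z hz
    have : exp (-L z / 2) ^ 2 = exp (-L z) := by
      rw [← exp_nat_mul]; congr 1; push_cast; ring
    rw [this, mul_comm]
    exact hconst z hz

lemma exp_unique {f S S' : ℂ → ℂ} {c c' : ℕ → ℂ} {J : ℕ} (hf : DifferentiableOn ℂ f (ball 0 1))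
    (hS : DifferentiableOn ℂ S (ball 0 1)) (hS' : DifferentiableOn ℂ S' (ball 0 1))
    (h : ∀ z ∈ ball (0:ℂ) 1, f z = ∑ j ∈ Finset.range J, c j * z ^ j + z ^ J * S z)
    (h' : ∀ z ∈ ball (0:ℂ) 1, f z = ∑ j ∈ Finset.range J, c' j * z ^ j + z ^ J * S' z) (n : ℕ)
    (hn : n < J) : c n = c' n := by
  rw [← coeff_of_exp hf hS h n hn, coeff_of_exp hf hS' h' n hn]

theorem no_univalent (B : ℂ → ℂ) (hB : DifferentiableOn ℂ B (ball 0 1))
    (hi : InjOn B (ball 0 1)) (hB0 : B 0 = 0) (β : ℂ) (hβ : β ≠ 0)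
    (h1 : iteratedDeriv 1 B 0 / ((Nat.factorial 1 : ℕ) : ℂ) = β)
    (h2 : iteratedDeriv 2 B 0 / ((Nat.factorial 2 : ℕ) : ℂ) = β * (19 / 10))
    (h3 : iteratedDeriv 3 B 0 / ((Nat.factorial 3 : ℕ) : ℂ) = β * (59 / 20)) : False := by
  -- expansion of B
  obtain ⟨F0, hF0d, hF0⟩ := dsl hB
  obtain ⟨F1, hF1d, hF1⟩ := dsl hF0d
  obtain ⟨F2, hF2d, hF2⟩ := dsl hF1d
  obtain ⟨F3, hF3d, hF3⟩ := dsl hF2d
  rw [hB0] at hF0
  have hBe : ∀ z ∈ ball (0:ℂ) 1, B z = ∑ j ∈ Finset.range 4,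
      (fun j : ℕ => if j = 1 then F0 0 else if j = 2 then F1 0 else if j = 3 then F2 0 else 0) j * z ^ j
      + z ^ 4 * F3 z := by
    intro z _
    simp only [Finset.sum_range_succ, Finset.sum_range_zero]
    norm_num
    rw [hF0, hF1, hF2, hF3]
    ring
  have b1 : F0 0 = β := by
    have := coeff_of_exp hB hF3d hBe 1 (by norm_num)
    rw [h1] at this
    simpa using this.symm
  have b2 : F1 0 = β * (19 / 10) := by
    have := coeff_of_exp hB hF3d hBe 2 (by norm_num)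
    rw [h2] at this
    simpa using this.symm
  have b3 : F2 0 = β * (59 / 20) := by
    have := coeff_of_exp hB hF3d hBe 3 (by norm_num)
    rw [h3] at this
    simpa using this.symm
  -- F
  set F : ℂ → ℂ := fun z => F0 z / β with hF
  have hFd : DifferentiableOn ℂ F (ball 0 1) := hF0d.div_const β
  have hFone : F 0 = 1 := by simp only [hF]; rw [b1, div_self hβ]
  have hFne : ∀ z ∈ ball (0:ℂ) 1, F z ≠ 0 := by
    intro z hz h
    have h0 : F0 z = 0 := by
      simp only [hF] at h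
      rcases div_eq_zero_iff.mp h with h | h
      · exact h
      · exact absurd h hβ
    have hBz : B z = B 0 := by rw [hF0 z, h0, hB0]; ring
    have hz0 : z = 0 := hi hz (mem_ball_self one_pos) hBz
    rw [hz0, hFone] at h
    exact one_ne_zero h
  have hBF : ∀ z, B z = β * z * F z := by
    intro z
    simp only [hF]
    rw [hF0 z]
    field_simp
    ring
  set G : ℂ → ℂ := fun z => F3 z / β with hG
  have hGd : DifferentiableOn ℂ G (ball 0 1) := hF3d.div_const β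
  have hFe : ∀ z, F z = 1 + 19 / 10 * z + 59 / 20 * z ^ 2 + z ^ 3 * G z := by
    intro z
    simp only [hF, hG]
    rw [hF1, hF2, hF3, b1, b2, b3]
    field_simp
    ring
  obtain ⟨κ, hκd, hκ0, hκne, hκF⟩ := inv_sqrt hFd hFone hFne
  obtain ⟨K1, hK1d, hK1⟩ := dsl hκd
  obtain ⟨K2, hK2d, hK2⟩ := dsl hK1d
  obtain ⟨K3, hK3d, hK3⟩ := dsl hK2d
  obtain ⟨K4, hK4d, hK4⟩ := dsl hK3d
  rw [hκ0] at hK1
  set k1 : ℂ := K1 0 with hk1
  set k2 : ℂ := K2 0 with hk2
  set c : ℂ := K3 0 with hc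
  have hκe3 : ∀ z, κ z = 1 + k1 * z + k2 * z ^ 2 + z ^ 3 * K3 z := by
    intro z
    rw [hK1, hK2, hK3]; ring
  have hκe4 : ∀ z, κ z = 1 + k1 * z + k2 * z ^ 2 + c * z ^ 3 + z ^ 4 * K4 z := by
    intro z
    rw [hκe3, hK4]; ring
  -- relations
  have hone : ∀ n < 3, (fun j : ℕ => if j = 0 then (1 : ℂ) else if j = 1 then 2 * k1 + 19 / 10 else
      2 * k2 + k1 ^ 2 + 2 * k1 * (19 / 10) + 59 / 20) n = (fun j : ℕ => if j = 0 then (1 : ℂ) else 0) n := by
    intro n hn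
    refine exp_unique (f := fun _ => (1 : ℂ)) (J := 3)
      (c := (fun j : ℕ => if j = 0 then (1 : ℂ) else if j = 1 then 2 * k1 + 19 / 10 else
      2 * k2 + k1 ^ 2 + 2 * k1 * (19 / 10) + 59 / 20)) (c' := (fun j : ℕ => if j = 0 then (1 : ℂ) else 0))
      (S := fun z => (2 * k1 * k2 + 2 * K3 z + z * (k2 ^ 2 + 2 * k1 * K3 z) + 2 * z ^ 2 * k2 * K3 z
        + z ^ 3 * K3 z ^ 2) * (1 + 19 / 10 * z + 59 / 20 * z ^ 2 + z ^ 3 * G z)
        + G z * (1 + 2 * k1 * z + (2 * k2 + k1 ^ 2) * z ^ 2) + 2 * k1 * (59 / 20)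
        + (2 * k2 + k1 ^ 2) * (19 / 10) + z * (2 * k2 + k1 ^ 2) * (59 / 20))
      (S' := fun _ => 0) (differentiableOn_const _) ?_ (differentiableOn_const _) ?_ ?_ n hn
    · fun_prop
    · intro z hz
      have e := hκF z hz
      rw [hκe3 z, hFe z] at e
      simp only [Finset.sum_range_succ, Finset.sum_range_zero, if_true, one_ne_zero, if_false,
        OfNat.ofNat_ne_zero, OfNat.ofNat_ne_one]
      linear_combination (-1) * e
    · intro z hz
      simp only [Finset.sum_range_succ, Finset.sum_range_zero]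
      norm_num
  have r1 : k1 = -(19 / 20) := by
    have := hone 1 (by norm_num)
    simp only [one_ne_zero, if_false, if_true] at this
    linear_combination this / 2
  have r2 : k2 = -(97 / 800) := by
    have := hone 2 (by norm_num)
    simp only [if_false, if_true, OfNat.ofNat_ne_zero, show (2 : ℕ) ≠ 1 by norm_num] at this
    rw [r1] at this
    linear_combination this / 2
  -- the odd transform
  set h : ℂ → ℂ := fun ζ => κ (ζ ^ 2) * ζ⁻¹ with hh
  have hsq : ∀ ζ ∈ ball (0:ℂ) 1, ζ ^ 2 ∈ ball (0:ℂ) 1 := by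
    intro ζ hζ
    rw [mem_ball_zero_iff] at hζ ⊢
    rw [norm_pow]
    nlinarith [norm_nonneg ζ]
  have hmaps : MapsTo (fun ζ : ℂ => ζ ^ 2) (ball (0:ℂ) 1) (ball (0:ℂ) 1) := hsq
  have hp2d : DifferentiableOn ℂ (fun ζ : ℂ => ζ ^ 2) (ball (0:ℂ) 1) := by fun_prop
  have hκ2 : DifferentiableOn ℂ (fun ζ => κ (ζ ^ 2)) (ball (0:ℂ) 1) := hκd.comp hp2d hmaps
  have hK42 : DifferentiableOn ℂ (fun ζ => K4 (ζ ^ 2)) (ball (0:ℂ) 1) := hK4d.comp hp2d hmaps
  have hhd : DifferentiableOn ℂ h Dp := by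
    refine DifferentiableOn.mul (hκ2.mono sdiff_subset) ?_
    refine DifferentiableOn.inv differentiableOn_id ?_
    intro z hz
    exact hz.2
  have hhne : ∀ ζ ∈ Dp, h ζ ≠ 0 := by
    intro ζ hζ
    exact mul_ne_zero (hκne _) (inv_ne_zero hζ.2)
  have hhi : InjOn h Dp := by
    intro ζ hζ ω hω he
    have q : ∀ x ∈ Dp, h x ^ 2 * B (x ^ 2) = β := by
      intro x hx
      have hx0 : x ≠ 0 := hx.2
      have := hκF (x ^ 2) (hsq x hx.1)
      simp only [hh]
      rw [hBF]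
      have e : (κ (x ^ 2) * x⁻¹) ^ 2 * (β * x ^ 2 * F (x ^ 2)) = β * (κ (x ^ 2) ^ 2 * F (x ^ 2)) := by
        field_simp
      rw [e, this, mul_one]
    have q1 := q ζ hζ
    have q2 := q ω hω
    rw [he, ← q2] at q1
    have q3 : B (ζ ^ 2) = B (ω ^ 2) := mul_left_cancel₀ (pow_ne_zero 2 (hhne ω hω)) q1
    have q4 : ζ ^ 2 = ω ^ 2 := hi (hsq ζ hζ.1) (hsq ω hω.1) q3
    rcases sq_eq_sq_iff_eq_or_eq_neg.mp q4 with q5 | q5
    · exact q5
    · exfalso
      have : h ζ = - h ω := by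
        simp only [hh]
        rw [q5]
        simp [inv_neg]
      rw [he] at this
      have h0 : h ω = 0 := by
        have : (2 : ℂ) * h ω = 0 := by linear_combination this
        simpa using this
      exact hhne ω hω h0
  have hhp : Tendsto h (𝓝[≠] 0) (Bornology.cobounded ℂ) := by
    rw [← tendsto_norm_atTop_iff_cobounded]
    have t1 : Tendsto (fun ζ : ℂ => ‖κ (ζ ^ 2)‖) (𝓝[≠] 0) (𝓝 1) := by
      have hc0 : ContinuousAt (fun ζ : ℂ => κ (ζ ^ 2)) 0 :=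
        (hκ2.differentiableAt (ball_mem_nhds _ one_pos)).continuousAt
      have := hc0.norm.tendsto
      simp only [ne_eq, OfNat.ofNat_ne_zero, not_false_eq_true, zero_pow, hκ0, norm_one] at this
      exact this.mono_left nhdsWithin_le_nhds
    have t2 : Tendsto (fun ζ : ℂ => ‖ζ⁻¹‖) (𝓝[≠] 0) atTop :=
      tendsto_norm_cobounded_atTop.comp tendsto_inv₀_nhdsNE_zero
    have t3 := t1.pos_mul_atTop one_pos t2
    refine t3.congr ?_
    intro ζ
    simp only [hh, norm_mul]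
  -- first area inequality
  have A1 : -1 + ‖k1‖ ^ 2 + 3 * ‖k2‖ ^ 2 + 5 * ‖c‖ ^ 2 ≤ 0 := by
    obtain ⟨a, ha1, ha2⟩ := hasSum_of_exp (f := fun ζ => κ (ζ ^ 2)) (J := 7)
      (S := fun ζ => ζ * K4 (ζ ^ 2))
      (c := fun j : ℕ => if j = 0 then 1 else if j = 2 then k1 else if j = 4 then k2 else
        if j = 6 then c else 0) (by fun_prop) (by
        intro z hz
        simp only [Finset.sum_range_succ, Finset.sum_range_zero]
        norm_num
        rw [hκe4]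
        ring)
    have := area_fin hhd hhi hhp (V := fun u => u) differentiable_id (P := fun ζ => κ (ζ ^ 2))
      hκ2 (m := 1) (by
        intro z hz
        have hz0 : z ≠ 0 := hz.2
        simp only [hh]
        field_simp) ha2 (J := 7) (by norm_num)
    simp only [Finset.sum_range_succ, Finset.sum_range_zero] at this
    rw [ha1 0 (by norm_num), ha1 1 (by norm_num), ha1 2 (by norm_num), ha1 3 (by norm_num),
      ha1 4 (by norm_num), ha1 5 (by norm_num), ha1 6 (by norm_num)] at this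
    norm_num at this
    linarith
  -- second area inequality
  have A2 : -3 - ‖3 * k1 + 10‖ ^ 2 + ‖3 * k2 + 3 * k1 ^ 2 + 10 * k1‖ ^ 2 +
      3 * ‖3 * c + 6 * k1 * k2 + k1 ^ 3 + 10 * k2‖ ^ 2 ≤ 0 := by
    obtain ⟨a, ha1, ha2⟩ := hasSum_of_exp (f := fun ζ => κ (ζ ^ 2) ^ 3 + 10 * ζ ^ 2 * κ (ζ ^ 2)) (J := 7)
      (S := fun ζ => ζ * ((6 * k1 * c + 3 * k2 ^ 2 + 3 * k1 ^ 2 * k2)
        + ζ ^ 2 * (6 * k2 * c + 3 * k1 ^ 2 * c + 3 * k1 * k2 ^ 2)
        + ζ ^ 4 * (3 * c ^ 2 + 6 * k1 * k2 * c + k2 ^ 3)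
        + ζ ^ 6 * (3 * k1 * c ^ 2 + 3 * k2 ^ 2 * c) + ζ ^ 8 * (3 * k2 * c ^ 2) + ζ ^ 10 * c ^ 3
        + 3 * (1 + k1 * ζ ^ 2 + k2 * ζ ^ 4 + c * ζ ^ 6) ^ 2 * K4 (ζ ^ 2)
        + 3 * (1 + k1 * ζ ^ 2 + k2 * ζ ^ 4 + c * ζ ^ 6) * ζ ^ 8 * K4 (ζ ^ 2) ^ 2
        + ζ ^ 16 * K4 (ζ ^ 2) ^ 3 + 10 * c + 10 * ζ ^ 2 * K4 (ζ ^ 2)))
      (c := fun j : ℕ => if j = 0 then 1 else if j = 2 then 3 * k1 + 10 else if j = 4 then
        3 * k2 + 3 * k1 ^ 2 + 10 * k1 else
        if j = 6 then 3 * c + 6 * k1 * k2 + k1 ^ 3 + 10 * k2 else 0) (by fun_prop) (by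
        intro z hz
        simp only [Finset.sum_range_succ, Finset.sum_range_zero]
        norm_num
        rw [hκe4]
        ring)
    have := area_fin hhd hhi hhp (V := fun u => u ^ 3 + 10 * u) (by fun_prop)
      (P := fun ζ => κ (ζ ^ 2) ^ 3 + 10 * ζ ^ 2 * κ (ζ ^ 2))
      (by fun_prop) (m := 3) (by
        intro z hz
        have hz0 : z ≠ 0 := hz.2
        simp only [hh]
        field_simp) ha2 (J := 7) (by norm_num)
    simp only [Finset.sum_range_succ, Finset.sum_range_zero] at this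
    rw [ha1 0 (by norm_num), ha1 1 (by norm_num), ha1 2 (by norm_num), ha1 3 (by norm_num),
      ha1 4 (by norm_num), ha1 5 (by norm_num), ha1 6 (by norm_num)] at this
    norm_num at this
    linarith
  rw [r1, r2] at A1 A2
  have e1 : (3 : ℂ) * (-(19 / 20)) + 10 = ((143 / 20 : ℝ) : ℂ) := by push_cast; ring
  have e2 : (3 : ℂ) * (-(97 / 800)) + 3 * (-(19 / 20)) ^ 2 + 10 * (-(19 / 20)) = ((-(229 / 32) : ℝ) : ℂ) := by
    push_cast; ring
  have e3 : (3 : ℂ) * c + 6 * (-(19 / 20)) * (-(97 / 800)) + (-(19 / 20)) ^ 3 + 10 * (-(97 / 800)) =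
      3 * c + ((-(1103 / 800) : ℝ) : ℂ) := by
    push_cast; ring
  have e4 : (-(19 / 20) : ℂ) = ((-(19 / 20) : ℝ) : ℂ) := by push_cast; ring
  have e5 : (-(97 / 800) : ℂ) = ((-(97 / 800) : ℝ) : ℂ) := by push_cast; ring
  rw [e1, e2, e3] at A2
  rw [e4, e5] at A1
  rw [Complex.norm_real, Complex.norm_real] at A1 A2
  rw [Real.norm_eq_abs, Real.norm_eq_abs, sq_abs, sq_abs] at A1 A2
  have n1 : ‖c‖ ^ 2 = c.re ^ 2 + c.im ^ 2 := by
    rw [← Complex.normSq_eq_norm_sq, Complex.normSq_apply]; ring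
  have n2 : ‖3 * c + ((-(1103 / 800) : ℝ) : ℂ)‖ ^ 2 = (3 * c.re - 1103 / 800) ^ 2 + (3 * c.im) ^ 2 := by
    rw [← Complex.normSq_eq_norm_sq, Complex.normSq_apply]
    simp
    ring
  rw [n1] at A1
  rw [n2] at A2
  nlinarith [sq_nonneg c.im, sq_nonneg c.re, sq_nonneg (c.re - 1 / 10), sq_nonneg (c.re - 11 / 100)]

end Pool.Agent.H896DB
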